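import Mathlib
import Pool.Agent.H26.LinBipC

open Pool.Agent.H26.Chi Pool.Agent.H26.LinBip

/-- For every graph of chromatic number aleph one, `hG G n / n` tends to infinity. -/
theorem Pool.Agent.Results.MP_c5c71e_co.Superlinear.result (V : Type) (G : SimpleGraph V)
    (h : chi G = Cardinal.aleph 1) :
    Filter.Tendsto (fun n : ℕ => (hG G n : ℝ) / n) Filter.atTop Filter.atTop := by
  have hU : ∀ c : V → ℕ, ∃ x y, G.Adj x y ∧ c x = c y := by
    intro c
    by_contra hn
    push Not at hn
    have : chi G ≤ Cardinal.aleph0 :=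
      csInf_le' ⟨ℕ, Cardinal.mk_nat, ⟨SimpleGraph.Coloring.mk c fun {x y} h => hn x y h⟩⟩
    rw [h] at this
    exact Cardinal.aleph0_lt_aleph_one.not_ge this
  refine Filter.tendsto_atTop.2 fun b => ?_
  obtain ⟨C, hC⟩ := exists_nat_ge b
  obtain ⟨n₀, hn⟩ := main G hU C
  filter_upwards [Filter.eventually_ge_atTop n₀, Filter.eventually_gt_atTop 0] with n h1 h2
  rw [le_div_iff₀ (by exact_mod_cast h2)]
  have : ((C * n : ℕ) : ℝ) ≤ hG G n := by exact_mod_cast hn n h1
  push_cast at this
  exact (mul_le_mul_of_nonneg_right hC (Nat.cast_nonneg n)).trans this
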